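import Pool.Agent.W455.EM.Stm

/-! # A matching outside `A` when `A` is too small -/

set_option autoImplicit false

namespace Pool.Agent.W863.EM

open Finset Pool.Agent.FracEM.PMT Pool.Agent.W455.EM

namespace EXB1

variable {n : ℕ}

/-- the degree inside the complement of `A` -/
def dB (H : Finset (Finset (Fin n))) (k : ℕ) (A : Finset (Fin n)) (v : Fin n) : ℕ :=
  (((((univ \ A).erase v).powersetCard (k - 1)).filter (fun X => insert v X ∈ H)).card)

/-- the edges outside `A` -/
def HB (H : Finset (Finset (Fin n))) (A : Finset (Fin n)) : Finset (Finset (Fin n)) :=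
  H.filter (fun e => Disjoint e A)

theorem card_er {k : ℕ} {e : Finset (Fin n)} (he : e.card = k) {v : Fin n} (hv : v ∈ e) :
    (e.erase v).card = k - 1 := by
  rw [card_erase_of_mem hv, he]

theorem deg_le {k : ℕ} {H : Finset (Finset (Fin n))} (hk : ∀ e ∈ H, e.card = k)
    {A : Finset (Fin n)} {v : Fin n} (hv : v ∉ A) :
    deg H v + (n - A.card - 1).choose (k - 1) ≤ dB H k A v + (n - 1).choose (k - 1) := by
  have hX : (((univ : Finset (Fin n)).erase v).powersetCard (k - 1)).card =
      (n - 1).choose (k - 1) := by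
    rw [card_powersetCard, card_erase_of_mem (mem_univ v), card_univ, Fintype.card_fin]
  have hY : (((univ \ A).erase v).powersetCard (k - 1)).card =
      (n - A.card - 1).choose (k - 1) := by
    rw [card_powersetCard, card_erase_of_mem (mem_sdiff.2 ⟨mem_univ v, hv⟩),
      card_sdiff_of_subset (subset_univ A), card_univ, Fintype.card_fin]
  have hsub : ((univ \ A).erase v).powersetCard (k - 1) ⊆
      ((univ : Finset (Fin n)).erase v).powersetCard (k - 1) :=
    powersetCard_mono (erase_subset_erase v (subset_univ _))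
  have h1 : deg H v ≤ ((((univ : Finset (Fin n)).erase v).powersetCard (k - 1)).filter
      (fun X => insert v X ∈ H)).card := by
    unfold deg
    refine card_le_card_of_injOn (fun e => e.erase v) ?_ ?_
    · intro e he
      rw [mem_coe, mem_filter] at he
      rw [mem_coe, mem_filter, mem_powersetCard]
      refine ⟨⟨erase_subset_erase v (subset_univ _), card_er (hk e he.1) he.2⟩, ?_⟩
      rw [insert_erase he.2]
      exact he.1
    · intro e he e' he' h
      rw [mem_coe, mem_filter] at he he'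
      have h2 : e.erase v = e'.erase v := h
      rw [← insert_erase he.2, h2, insert_erase he'.2]
  have h2 : ((((univ : Finset (Fin n)).erase v).powersetCard (k - 1)).filter
      (fun X => insert v X ∈ H)).card ≤ dB H k A v +
      (((univ : Finset (Fin n)).erase v).powersetCard (k - 1) \
        ((univ \ A).erase v).powersetCard (k - 1)).card := by
    refine (card_le_card ?_).trans (card_union_le _ _)
    intro X hX
    rw [mem_filter] at hX
    rw [mem_union]
    by_cases h : X ∈ ((univ \ A).erase v).powersetCard (k - 1)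
    · exact Or.inl (mem_filter.2 ⟨h, hX.2⟩)
    · exact Or.inr (mem_sdiff.2 ⟨hX.1, h⟩)
  rw [card_sdiff_of_subset hsub, hX, hY] at h2
  have h3 := card_le_card hsub
  rw [hX, hY] at h3
  omega

theorem degB_le {k : ℕ} {H : Finset (Finset (Fin n))} (hk : ∀ e ∈ H, e.card = k)
    {A : Finset (Fin n)} (v : Fin n) :
    ((HB H A).filter (fun e => v ∈ e)).card ≤ dB H k A v := by
  refine card_le_card_of_injOn (fun e => e.erase v) ?_ ?_
  · intro e he
    rw [mem_coe, mem_filter, HB, mem_filter] at he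
    rw [mem_coe, mem_filter, mem_powersetCard]
    refine ⟨⟨erase_subset_erase v fun x hx => ?_, card_er (hk e he.1.1) he.2⟩, ?_⟩
    · exact mem_sdiff.2 ⟨mem_univ x, disjoint_left.1 he.1.2 hx⟩
    · rw [insert_erase he.2]
      exact he.1.1
  · intro e he e' he' h
    rw [mem_coe, mem_filter] at he he'
    have h2 : e.erase v = e'.erase v := h
    rw [← insert_erase he.2, h2, insert_erase he'.2]

theorem le_degB {k : ℕ} {H : Finset (Finset (Fin n))} {A : Finset (Fin n)} {v : Fin n}
    (hv : v ∉ A) : dB H k A v ≤ ((HB H A).filter (fun e => v ∈ e)).card := by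
  refine card_le_card_of_injOn (fun X => insert v X) ?_ ?_
  · intro X hX
    rw [mem_coe, mem_filter, mem_powersetCard] at hX
    rw [mem_coe, mem_filter, HB, mem_filter]
    refine ⟨⟨hX.2, ?_⟩, mem_insert_self v X⟩
    rw [disjoint_insert_left]
    refine ⟨hv, disjoint_left.2 fun x hx => ?_⟩
    exact (mem_sdiff.1 (mem_of_mem_erase (hX.1.1 hx))).2
  · intro X hX Y hY h
    rw [mem_coe, mem_filter, mem_powersetCard] at hX hY
    have h1 : v ∉ X := fun h' => (mem_erase.1 (hX.1.1 h')).1 rfl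
    have h2 : v ∉ Y := fun h' => (mem_erase.1 (hY.1.1 h')).1 rfl
    have h3 : insert v X = insert v Y := h
    rw [← erase_insert h1, h3, erase_insert h2]

theorem dcount {k : ℕ} {H : Finset (Finset (Fin n))} (hk : ∀ e ∈ H, e.card = k)
    (A : Finset (Fin n)) :
    ∑ v ∈ univ \ A, ((HB H A).filter (fun e => v ∈ e)).card = (HB H A).card * k := by
  simp only [card_filter]
  rw [sum_comm, ← smul_eq_mul, ← sum_const]
  refine sum_congr rfl fun e he => ?_
  rw [HB, mem_filter] at he
  rw [← card_filter]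
  rw [← hk e he.1]
  congr 1
  ext x
  rw [mem_filter, mem_sdiff]
  exact ⟨fun h => h.2, fun h => ⟨⟨mem_univ x, disjoint_left.1 he.2 h⟩, h⟩⟩

theorem choose_add (m r s : ℕ) :
    m.choose (r + 1) + s * m.choose r ≤ (m + s).choose (r + 1) := by
  induction s with
  | zero => simp
  | succ s ih =>
    rw [← Nat.add_assoc, Nat.choose_succ_succ' (m + s) r, Nat.add_mul, one_mul]
    have h : m.choose r ≤ (m + s).choose r := Nat.choose_le_choose r (Nat.le_add_right m s)
    omega

/-- the final inequality -/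
theorem arith (k N a : ℕ) (hk : 3 ≤ k) (n : ℕ) (hn : n = k * N) (hN : 4 ≤ N) (ha : a ≤ N)
    (α : ℝ) (h0 : 0 < α)
    (hα : α ≤ 1 / (4 * 4 ^ (k - 2) * ((k - 2).factorial : ℝ) * (k : ℝ) ^ 2))
    (h : ((n - a : ℕ) : ℝ) * ((n - N).choose (k - 2) : ℝ) ≤
      (k : ℝ) ^ 2 * (α * (n : ℝ) ^ (k - 1))) : False := by
  have hkN : 3 * N ≤ n := by rw [hn]; exact Nat.mul_le_mul_right N hk
  have hk4 : 4 * k ≤ n := by rw [hn, mul_comm]; exact Nat.mul_le_mul_left k hN
  have hkR : (0 : ℝ) < k := by
    have : 0 < k := by omega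
    exact_mod_cast this
  have hnR : (0 : ℝ) < n := by
    have : 0 < n := by omega
    exact_mod_cast this
  have h1 : (n : ℝ) / 2 ≤ ((n - a : ℕ) : ℝ) := by
    rw [div_le_iff₀ (by norm_num)]
    have : n ≤ (n - a) * 2 := by omega
    exact_mod_cast this
  have h2 : ((n : ℝ) / 4) ^ (k - 2) ≤ ((k - 2).factorial : ℝ) * ((n - N).choose (k - 2) : ℝ) := by
    have h3 : ((n - N + 1 - (k - 2) : ℕ) : ℝ) ^ (k - 2) ≤
        ((k - 2).factorial : ℝ) * ((n - N).choose (k - 2) : ℝ) := by
      have hf0 : (0 : ℝ) < ((k - 2).factorial : ℝ) := by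
        exact_mod_cast Nat.factorial_pos (k - 2)
      have h4 := Nat.pow_le_choose (α := ℝ) (k - 2) (n - N)
      rw [div_le_iff₀ hf0, mul_comm] at h4
      exact_mod_cast h4
    refine le_trans (pow_le_pow_left₀ (by positivity) ?_ _) h3
    rw [div_le_iff₀ (by norm_num)]
    have : n ≤ (n - N + 1 - (k - 2)) * 4 := by omega
    exact_mod_cast this
  have hf : (0 : ℝ) < ((k - 2).factorial : ℝ) := by
    exact_mod_cast Nat.factorial_pos (k - 2)
  set F : ℝ := ((k - 2).factorial : ℝ) with hF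
  set C : ℝ := ((n - N).choose (k - 2) : ℝ) with hC
  have h4 : (n : ℝ) / 2 * ((n : ℝ) / 4) ^ (k - 2) ≤ F * ((k : ℝ) ^ 2 * (α * (n : ℝ) ^ (k - 1))) := by
    calc (n : ℝ) / 2 * ((n : ℝ) / 4) ^ (k - 2) ≤ ((n - a : ℕ) : ℝ) * (F * C) :=
          mul_le_mul h1 h2 (by positivity) (by positivity)
      _ = F * (((n - a : ℕ) : ℝ) * C) := by ring
      _ ≤ _ := mul_le_mul_of_nonneg_left h hf.le
  have h5 : (n : ℝ) / 2 * ((n : ℝ) / 4) ^ (k - 2) = (n : ℝ) ^ (k - 1) / (2 * 4 ^ (k - 2)) := by
    have e : k - 1 = (k - 2) + 1 := by omega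
    rw [e, div_pow, pow_succ]
    field_simp
  have h6 : F * ((k : ℝ) ^ 2 * (α * (n : ℝ) ^ (k - 1))) ≤
      (n : ℝ) ^ (k - 1) / (4 * 4 ^ (k - 2)) := by
    have h7 : F * (k : ℝ) ^ 2 * α ≤ 1 / (4 * 4 ^ (k - 2)) := by
      calc F * (k : ℝ) ^ 2 * α ≤ F * (k : ℝ) ^ 2 * (1 / (4 * 4 ^ (k - 2) * F * (k : ℝ) ^ 2)) :=
            mul_le_mul_of_nonneg_left hα (by positivity)
        _ = _ := by field_simp
    calc F * ((k : ℝ) ^ 2 * (α * (n : ℝ) ^ (k - 1))) = (F * (k : ℝ) ^ 2 * α) * (n : ℝ) ^ (k - 1) := by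
          ring
      _ ≤ 1 / (4 * 4 ^ (k - 2)) * (n : ℝ) ^ (k - 1) :=
          mul_le_mul_of_nonneg_right h7 (by positivity)
      _ = _ := by ring
  have h8 := h4.trans h6
  rw [h5] at h8
  have h9 : (0 : ℝ) < (n : ℝ) ^ (k - 1) := by positivity
  have h10 : (n : ℝ) ^ (k - 1) / (4 * 4 ^ (k - 2)) < (n : ℝ) ^ (k - 1) / (2 * 4 ^ (k - 2)) := by
    apply div_lt_div_of_pos_left h9 (by positivity)
    have : (0 : ℝ) < 4 ^ (k - 2) := by positivity
    linarith
  linarith

theorem main : S_EXB1 := by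
  classical
  intro k hk
  refine ⟨1 / (4 * 4 ^ (k - 2) * ((k - 2).factorial : ℝ) * (k : ℝ) ^ 2), ?_, 1, one_pos, 4 * k, ?_⟩
  · have : 0 < k := by omega
    positivity
  intro n hn hkn H A α γ hα hα0 _ _ hS hD hA
  obtain ⟨N, rfl⟩ := hkn
  have hk0 : 0 < k := by omega
  have hNN : k * N / k = N := Nat.mul_div_cancel_left N hk0
  unfold Dg at hD
  rw [hNN] at hA hD ⊢
  have hN : 4 ≤ N := by
    by_contra h
    have h1 : N < 4 := not_le.1 h
    have h2 : k * N < k * 4 := Nat.mul_lt_mul_of_pos_left h1 hk0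
    omega
  rcases Nat.eq_zero_or_pos (N - A.card) with ht | ht
  · refine ⟨∅, empty_subset _, ?_, ?_, ?_⟩
    · intro e he
      exact absurd he (notMem_empty e)
    · rw [ht, card_empty]
    · intro e he
      exact absurd he (notMem_empty e)
  obtain ⟨M, hM, hmax⟩ := exists_max_image ((HB H A).powerset.filter fun M => Matching M)
    (fun M => M.card) ⟨∅, mem_filter.2 ⟨empty_mem_powerset _, fun e he => absurd he (notMem_empty e)⟩⟩
  rw [mem_filter, mem_powerset] at hM
  rcases le_or_gt (N - A.card) M.card with h | h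
  · obtain ⟨M₁, hM₁, hc⟩ := exists_subset_card_eq h
    refine ⟨M₁, fun e he => (mem_filter.1 (hM.1 (hM₁ he))).1, ?_, hc, fun e he =>
      (mem_filter.1 (hM.1 (hM₁ he))).2⟩
    intro e he e' he' hne
    exact hM.2 e (hM₁ he) e' (hM₁ he') hne
  exfalso
  -- every edge outside `A` meets the matching
  have hmeet : ∀ e ∈ HB H A, ∃ u ∈ M.biUnion id, u ∈ e := by
    intro e he
    by_contra hcon
    push Not at hcon
    have heH := (mem_filter.1 he).1
    have hdis : ∀ f ∈ M, Disjoint e f := by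
      intro f hf
      rw [disjoint_left]
      intro x hx hxf
      exact hcon x (mem_biUnion.2 ⟨f, hf, hxf⟩) hx
    have hne : e ∉ M := by
      intro heM
      have h1 := hdis e heM
      rw [disjoint_self_iff_empty] at h1
      have h2 := hS.uni e heH
      rw [h1, card_empty] at h2
      omega
    have h1 := hmax (insert e M) (by
      rw [mem_filter, mem_powerset]
      refine ⟨insert_subset he hM.1, ?_⟩
      intro f hf f' hf' hff
      rcases mem_insert.1 hf with h1 | h1 <;> rcases mem_insert.1 hf' with h2 | h2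
      · exact absurd (h1.trans h2.symm) hff
      · rw [h1]; exact hdis f' h2
      · rw [h2]; exact (hdis f h1).symm
      · exact hM.2 f h1 f' h2 hff)
    rw [card_insert_of_notMem hne] at h1
    omega
  have hU : (M.biUnion id).card ≤ M.card * k :=
    card_biUnion_le_card_mul _ _ _ fun e he => (hS.uni e (mem_filter.1 (hM.1 he)).1).le
  have hUA : ∀ u ∈ M.biUnion id, u ∉ A := by
    intro u hu
    obtain ⟨e, he, hue⟩ := mem_biUnion.1 hu
    exact disjoint_left.1 (mem_filter.1 (hM.1 he)).2 hue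
  have hcov : (HB H A).card ≤ ∑ u ∈ M.biUnion id, ((HB H A).filter (fun e => u ∈ e)).card := by
    refine (card_le_card ?_).trans card_biUnion_le
    intro e he
    obtain ⟨u, hu, hue⟩ := hmeet e he
    exact mem_biUnion.2 ⟨u, hu, mem_filter.2 ⟨he, hue⟩⟩
  have hlow : ∀ v, v ∉ A → ((dB H k A v : ℕ) : ℝ) ≤ α * ((k * N : ℕ) : ℝ) ^ (k - 1) :=
    fun v hv => hS.low v hv
  have hHB : ((HB H A).card : ℝ) ≤ (M.card * k : ℕ) * (α * ((k * N : ℕ) : ℝ) ^ (k - 1)) := by
    have h1 : ((HB H A).card : ℝ) ≤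
        ∑ u ∈ M.biUnion id, (((HB H A).filter (fun e => u ∈ e)).card : ℝ) := by
      exact_mod_cast hcov
    refine h1.trans ?_
    have h2 : ∑ u ∈ M.biUnion id, (((HB H A).filter (fun e => u ∈ e)).card : ℝ) ≤
        ∑ u ∈ M.biUnion id, α * ((k * N : ℕ) : ℝ) ^ (k - 1) := by
      refine sum_le_sum fun u hu => le_trans ?_ (hlow u (hUA u hu))
      exact_mod_cast degB_le hS.uni u
    refine h2.trans ?_
    rw [sum_const, nsmul_eq_mul]
    refine mul_le_mul_of_nonneg_right ?_ (by positivity)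
    exact_mod_cast hU
  -- the lower bound
  have hdeg : ∀ v, v ∉ A →
      1 + (N - A.card - 1) * (k * N - N).choose (k - 2) ≤
        ((HB H A).filter (fun e => v ∈ e)).card := by
    intro v hv
    refine le_trans ?_ (le_degB hv (k := k))
    have h1 := deg_le hS.uni hv
    have h2 := hD v
    have h3 := choose_add (k * N - N) (k - 2) (N - A.card - 1)
    have e1 : k - 2 + 1 = k - 1 := by omega
    have e2 : k * N - N + (N - A.card - 1) = k * N - A.card - 1 := by
      have : N ≤ k * N := Nat.le_mul_of_pos_left N hk0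
      omega
    rw [e1, e2] at h3
    omega
  have hsum := dcount hS.uni A
  have hBc : (univ \ A : Finset (Fin (k * N))).card = k * N - A.card := by
    rw [card_sdiff_of_subset (subset_univ A), card_univ, Fintype.card_fin]
  have hlb : (k * N - A.card) * (1 + (N - A.card - 1) * (k * N - N).choose (k - 2)) ≤
      (HB H A).card * k := by
    rw [← hsum, ← hBc, ← smul_eq_mul, ← sum_const]
    exact sum_le_sum fun v hv => hdeg v (mem_sdiff.1 hv).2
  have hlbR : ((k * N - A.card : ℕ) : ℝ) *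
      (1 + ((N - A.card - 1 : ℕ) : ℝ) * ((k * N - N).choose (k - 2) : ℝ)) ≤
      ((HB H A).card : ℝ) * k := by
    exact_mod_cast hlb
  have hMc : M.card ≤ N - A.card - 1 := by omega
  have hMR : ((M.card * k : ℕ) : ℝ) ≤ ((N - A.card - 1 : ℕ) : ℝ) * k := by
    exact_mod_cast Nat.mul_le_mul_right k hMc
  have hkR : (0 : ℝ) ≤ k := Nat.cast_nonneg k
  have hup : ((HB H A).card : ℝ) * k ≤ ((N - A.card - 1 : ℕ) : ℝ) *
      ((k : ℝ) ^ 2 * (α * ((k * N : ℕ) : ℝ) ^ (k - 1))) := by
    calc ((HB H A).card : ℝ) * k ≤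
          ((M.card * k : ℕ) * (α * ((k * N : ℕ) : ℝ) ^ (k - 1))) * k :=
          mul_le_mul_of_nonneg_right hHB hkR
      _ ≤ ((((N - A.card - 1 : ℕ) : ℝ) * k) * (α * ((k * N : ℕ) : ℝ) ^ (k - 1))) * k :=
          mul_le_mul_of_nonneg_right (mul_le_mul_of_nonneg_right hMR (by positivity)) hkR
      _ = _ := by ring
  have hfin := hlbR.trans hup
  have hBpos : (0 : ℝ) < ((k * N - A.card : ℕ) : ℝ) := by
    have h1 : 3 * N ≤ k * N := Nat.mul_le_mul_right N hk
    have : 0 < k * N - A.card := by omega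
    exact_mod_cast this
  rcases Nat.eq_zero_or_pos (N - A.card - 1) with hs | hs
  · rw [hs] at hfin
    simp only [Nat.cast_zero, zero_mul, add_zero, mul_one] at hfin
    linarith
  · have hsR : (0 : ℝ) < ((N - A.card - 1 : ℕ) : ℝ) := by exact_mod_cast hs
    have h1 : ((k * N - A.card : ℕ) : ℝ) * ((k * N - N).choose (k - 2) : ℝ) ≤
        (k : ℝ) ^ 2 * (α * ((k * N : ℕ) : ℝ) ^ (k - 1)) := by
      have h2 : ((N - A.card - 1 : ℕ) : ℝ) * (((k * N - A.card : ℕ) : ℝ) *
          ((k * N - N).choose (k - 2) : ℝ)) ≤ ((N - A.card - 1 : ℕ) : ℝ) *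
          ((k : ℝ) ^ 2 * (α * ((k * N : ℕ) : ℝ) ^ (k - 1))) := by
        refine le_trans ?_ hfin
        nlinarith [hBpos]
      exact le_of_mul_le_mul_left h2 hsR
    exact arith k N A.card hk (k * N) rfl hN hA α hα hα0 h1

end EXB1

end Pool.Agent.W863.EM
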